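import Pool.Agent.ROR.Correct
import Pool.Agent.ROR.MonicCase
import Pool.Agent.ROR.DensF

/-!
# Residual solvability of one-relator groups is decidable outside relators that are proper powers
modulo `[E, E]`, and these are almost all relators

`F = F(x_0, …, x_{n-1})`, `R` is the normal closure of the relator `r`, `N_0 = F`,
`N_{m+1} = {x ∈ N_m : x^e ∈ [N_m, N_m] R for some e ≥ 1}` and `E = ⋂ N_m` (so `E = R` means that the
rational derived series of `F/R` meets in `1`).
-/

set_option autoImplicit false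

namespace Pool.Agent.Results.MP_08b746_al.ContentOneDecision

/-- the one-relator group `⟨x_0, …, x_{n-1} ∣ r⟩` is residually solvable (same predicate as in the
frozen statement). -/
def ResSolvable (p : ℕ × List (ℕ × Bool)) : Prop :=
  ∀ g : PresentedGroup (({FreeGroup.mk p.2} : Set (FreeGroup ℕ)) ∪ FreeGroup.of '' Set.Ici p.1),
    (∀ k : ℕ, g ∈ derivedSeries
      (PresentedGroup (({FreeGroup.mk p.2} : Set (FreeGroup ℕ)) ∪ FreeGroup.of '' Set.Ici p.1)) k) →
    g = 1

/-- the relator as an element of the free group of rank `n` (letters `x_i` with `i ≥ n` are killed) -/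
def relator (n : ℕ) (w : List (ℕ × Bool)) : FreeGroup (Fin n) :=
  FreeGroup.lift (fun i => if h : i < n then FreeGroup.of (⟨i, h⟩ : Fin n) else 1)
    (FreeGroup.mk w)

/-- the normal closure of the relator -/
def relSub (n : ℕ) (w : List (ℕ × Bool)) : Subgroup (FreeGroup (Fin n)) :=
  Subgroup.normalClosure {relator n w}

/-- the rational derived series of `F` modulo `R`: `N_0 = F` and `N_{m+1}` is generated by (in fact
equal to) the set of all `x ∈ N_m` such that `x^e ∈ [N_m, N_m] R` for some `e ≥ 1`. -/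
def ratSer {F : Type*} [Group F] (R : Subgroup F) : ℕ → Subgroup F
  | 0 => ⊤
  | m + 1 => Subgroup.closure
      {x | x ∈ ratSer R m ∧ ∃ e : ℕ, 0 < e ∧ x ^ e ∈ ⁅ratSer R m, ratSer R m⁆ ⊔ R}

/-- `E`, the intersection of the rational derived series modulo `R` -/
def ratRes (n : ℕ) (w : List (ℕ × Bool)) : Subgroup (FreeGroup (Fin n)) :=
  ⨅ m, ratSer (relSub n w) m

/-- the conjugate `t^{-l} x_j t^l`, `t = x_0`. -/
def lev (j l : ℕ) : FreeGroup ℕ := (FreeGroup.of 0)⁻¹ ^ l * FreeGroup.of j * FreeGroup.of 0 ^ l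

/-- `r = (t^{-K} a t^K) v⁻¹` (`t = x_0`, `a = x_1`) for some `K` and some product `v` of elements
`(t^{-l} x_j t^l)^{±1}` with `1 ≤ j < n`, `l ≥ 0`, and `l < K` if `j = 1`. -/
def MonicForm (n : ℕ) (r : FreeGroup ℕ) : Prop :=
  ∃ K : ℕ, ∃ v ∈ Subgroup.closure {x : FreeGroup ℕ | ∃ j l : ℕ, 1 ≤ j ∧ j < n ∧ (j = 1 → l < K) ∧
    x = lev j l}, r = lev 1 K * v⁻¹

/-- `r` or `r⁻¹` becomes of monic form under an automorphism (fixing the generators `x_i`, `i ≥ n`). -/
def Monic (n : ℕ) (r : FreeGroup ℕ) : Prop :=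
  2 ≤ n ∧ ∃ α : FreeGroup ℕ ≃* FreeGroup ℕ, (∀ i, n ≤ i → α (FreeGroup.of i) = FreeGroup.of i) ∧
    (MonicForm n (α r) ∨ MonicForm n (α r)⁻¹)

theorem ratSer_eq {F : Type*} [Group F] (R : Subgroup F) (m : ℕ) :
    ratSer R m = ROR.rser R m := by
  induction m with
  | zero => rfl
  | succ m ih =>
    show Subgroup.closure {x | x ∈ ratSer R m ∧ ∃ e : ℕ, 0 < e ∧ x ^ e ∈ ⁅ratSer R m, ratSer R m⁆ ⊔ R}
      = Subgroup.closure (ROR.nextSet R (ROR.rser R m))
    rw [ih]
    rfl

theorem ratRes_eq (n : ℕ) (w : List (ℕ × Bool)) :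
    ratRes n w = ROR.rres (Subgroup.normalClosure {ROR.relator n w}) := by
  rw [ratRes, ROR.rres]
  exact iInf_congr fun m => ratSer_eq _ m

/-- There is an algorithm (a computable total function `f`) with answers yes, no, unknown whose
answers yes and no to the question whether `⟨x_0, …, x_{n-1} ∣ w⟩` is residually solvable are
correct; the answer is yes exactly if `E = R`, and it is unknown only if `E ≠ R` and the relator
is of the form `y^k` modulo `[E, E]` with `y ∈ E`, `k ≥ 2`; it is never unknown for relators which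
are monic up to an automorphism; for every `n ≥ 2` the proportion of the words of length `L` in the
letters `x_0^{±1}, …, x_{n-1}^{±1}` for which it is unknown tends to `0` as `L → ∞`. -/
theorem result :
    ∃ f : ℕ × List (ℕ × Bool) → Option Bool, Computable f ∧
      (∀ (n : ℕ) (w : List (ℕ × Bool)),
        (f (n, w) = some true → ResSolvable (n, w)) ∧
        (f (n, w) = some false → ¬ ResSolvable (n, w)) ∧
        (f (n, w) = some true ↔ ratRes n w = relSub n w) ∧
        (f (n, w) = none → ∃ y ∈ ratRes n w, ∃ k : ℕ, 2 ≤ k ∧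
          relator n w * (y ^ k)⁻¹ ∈ ⁅ratRes n w, ratRes n w⁆) ∧
        (Monic n (FreeGroup.mk w) → f (n, w) ≠ none)) ∧
      ∀ n : ℕ, 2 ≤ n → Filter.Tendsto (fun L : ℕ =>
        ((Finset.univ.filter fun v : Fin L → Fin n × Bool =>
          f (n, (List.ofFn v).map fun x => (x.1.val, x.2)) = none).card : ℝ) / (2 * n) ^ L)
        Filter.atTop (nhds 0) := by
  obtain ⟨f, hf, hspec⟩ := ROR.exists_alg
  refine ⟨f, hf, fun n w => ?_, fun n hn =>
    RODens.tendsto_unknown f (fun n w h => (hspec n w).2.2 h) n hn⟩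
  obtain ⟨h1, h2, h3⟩ := hspec n w
  rw [ratRes_eq]
  refine ⟨fun h => ?_, fun h hRS => ?_, h1, h3, fun hm hnone => ?_⟩
  · exact (ROR.rs_oneRel_iff n w).2 (ROR.rs_of_rres_eq _ (h1.1 h))
  · exact h2 h ((ROR.rs_oneRel_iff n w).1 hRS)
  · obtain ⟨y, hy, k, hk, hyk⟩ := h3 hnone
    exact ROR.monic_not_pow n w hm y hy k hk hyk

end Pool.Agent.Results.MP_08b746_al.ContentOneDecision
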